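import Mathlib
import Pool.Agent.Rep463.Rep
import Pool.Agent.Rep463.MF
import Pool.Agent.Rep463.Final

/-!
# Idempotents of representation rings of infinite groups and of classes of representations
-/

namespace Pool.Agent.Y112.IR

open scoped TensorProduct Kronecker
open Finset Pool.Agent.Rep463

universe u v

variable {R : Type u} [CommRing R] {G : Type v}

section Test

variable [Group G]

/-- Finitely many elements of `G` suffice to test whether a matrix intertwines two
representations. -/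
theorem exists_test (h : Group.FG G ∨ IsNoetherianRing R) {n : ℕ}
    (A B : G → Matrix (Fin n) (Fin n) R) (hA1 : A 1 = 1) (hAm : ∀ g h, A (g * h) = A g * A h)
    (hB1 : B 1 = 1) (hBm : ∀ g h, B (g * h) = B g * B h) :
    ∃ S : Finset G, ∀ φ : Matrix (Fin n) (Fin n) R, (∀ g ∈ S, φ * A g = B g * φ) →
      ∀ g, φ * A g = B g * φ := by
  classical
  rcases h with h | h
  · obtain ⟨S, hS⟩ := h.out
    refine ⟨S, fun φ hφ g => ?_⟩
    have hg : g ∈ Subgroup.closure (S : Set G) := by rw [hS]; trivial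
    induction hg using Subgroup.closure_induction with
    | mem x hx => exact hφ x hx
    | one => rw [hA1, hB1, mul_one, one_mul]
    | mul x y _ _ hx hy => rw [hAm, hBm, ← mul_assoc, hx, mul_assoc, hy, ← mul_assoc]
    | inv x _ hx =>
      have h1 : B x⁻¹ * B x = 1 := by rw [← hBm, inv_mul_cancel, hB1]
      have h2 : A x * A x⁻¹ = 1 := by rw [← hAm, mul_inv_cancel, hA1]
      calc φ * A x⁻¹ = B x⁻¹ * B x * (φ * A x⁻¹) := by rw [h1, one_mul]
        _ = B x⁻¹ * (B x * φ) * A x⁻¹ := by simp only [mul_assoc]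
        _ = B x⁻¹ * (φ * A x) * A x⁻¹ := by rw [hx]
        _ = B x⁻¹ * φ * (A x * A x⁻¹) := by simp only [mul_assoc]
        _ = B x⁻¹ * φ := by rw [h2, mul_one]
  · let w : G → Matrix (Fin n) (Fin n) R × Matrix (Fin n) (Fin n) R := fun g => (A g, B g)
    have hfg : (Submodule.span R (Set.range w)).FG := IsNoetherian.noetherian _
    obtain ⟨s, hs, hs'⟩ := (Submodule.fg_span_iff_fg_span_finset_subset _).1 hfg
    have hp : ∀ x : s, ∃ g, w g = x.1 := fun x => hs x.2
    choose p hp using hp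
    refine ⟨Finset.univ.image p, fun φ hφ g => ?_⟩
    let T : Submodule R (Matrix (Fin n) (Fin n) R × Matrix (Fin n) (Fin n) R) :=
      { carrier := {x | φ * x.1 = x.2 * φ}
        add_mem' := fun {x y} hx hy => by
          change φ * (x.1 + y.1) = (x.2 + y.2) * φ
          rw [mul_add, add_mul, hx, hy]
        zero_mem' := by
          change φ * 0 = 0 * φ
          rw [mul_zero, zero_mul]
        smul_mem' := fun c x hx => by
          change φ * (c • x.1) = (c • x.2) * φ
          rw [mul_smul_comm, smul_mul_assoc, hx] }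
    have h1 : Submodule.span R (s : Set (Matrix (Fin n) (Fin n) R × Matrix (Fin n) (Fin n) R)) ≤
        T := by
      rw [Submodule.span_le]
      intro x hx
      have h2 := hφ (p ⟨x, hx⟩) (Finset.mem_image.2 ⟨⟨x, hx⟩, Finset.mem_univ _, rfl⟩)
      have h3 : w (p ⟨x, hx⟩) = x := hp ⟨x, hx⟩
      have h5 : φ * (w (p ⟨x, hx⟩)).1 = (w (p ⟨x, hx⟩)).2 * φ := h2
      rw [h3] at h5
      exact h5
    have h4 : w g ∈ T := h1 (hs' ▸ Submodule.subset_span ⟨g, rfl⟩)
    exact h4

end Test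

section Cls

variable (T : Subsemiring (OpClass R G))

/-- The class in `K0 T`. -/
noncomputable def cl (X : OpMod R G) (hX : OpClass.mk X ∈ T) : K0 T := K0.of ⟨OpClass.mk X, hX⟩

variable {T}

lemma cl_sum {X Y : OpMod R G} (hX : OpClass.mk X ∈ T) (hY : OpClass.mk Y ∈ T) :
    cl T (X.sum Y) (T.add_mem hX hY) = cl T X hX + cl T Y hY := by
  unfold cl
  rw [← map_add]
  rfl

lemma cl_tensor {X Y : OpMod R G} (hX : OpClass.mk X ∈ T) (hY : OpClass.mk Y ∈ T) :
    cl T (X.tensor Y) (T.mul_mem hX hY) = cl T X hX * cl T Y hY := by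
  unfold cl
  rw [← K0.of_mul]
  rfl

lemma cl_zero : cl T (OpMod.zero R G) T.zero_mem = 0 := by
  unfold cl
  exact map_zero (K0.of (N := T))

lemma cl_unit : cl T (OpMod.unit R G) T.one_mem = 1 := rfl

lemma cl_congr {X Y : OpMod R G} (hX : OpClass.mk X ∈ T) (hY : OpClass.mk Y ∈ T)
    (h : OpMod.Iso X Y) : cl T X hX = cl T Y hY := by
  unfold cl
  congr 1
  exact Subtype.ext (OpClass.mk_eq_mk.2 h)

/-- Matrix factorisations in the class `T`. -/
def HasMFT (a : K0 T) (c : R) : Prop :=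
  ∃ (r : ℕ) (E O : OpMod R G) (hE : OpClass.mk E ∈ T) (hO : OpClass.mk O ∈ T)
    (D : E →ₗ[R] O) (D' : O →ₗ[R] E),
    cl T E hE - cl T O hO = a ^ r ∧ (∀ g x, D (E.op g x) = O.op g (D x)) ∧
    (∀ g x, D' (O.op g x) = E.op g (D' x)) ∧ (∀ x, D' (D x) = c • x) ∧ ∀ x, D (D' x) = c • x

lemma hasMFT_zero (a : K0 T) : HasMFT a (0 : R) := by
  refine ⟨0, OpMod.unit R G, OpMod.zero R G, T.one_mem, T.zero_mem, 0, 0, ?_, ?_, ?_, ?_, ?_⟩
  · rw [cl_unit, cl_zero, sub_zero, pow_zero]
  · intro g x; rfl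
  · intro g x; rfl
  · intro x; simp
  · intro x; rfl

lemma hasMFT_step (M N : OpMod R G) (hM : OpClass.mk M ∈ T) (hN : OpClass.mk N ∈ T)
    (φ : M →ₗ[R] N) (s : N →ₗ[R] M)
    (hφ : ∀ g x, φ (M.op g x) = N.op g (φ x))
    (hs : ∀ g x, s (N.op g x) = M.op g (s x))
    (b c' : R) (hsφ : ∀ x, s (φ x) = c' • x) (hφs : ∀ x, φ (s x) = c' • x) (c : R)
    (h : HasMFT (cl T M hM - cl T N hN) c) :
    HasMFT (cl T M hM - cl T N hN) (c + b * c') := by
  obtain ⟨r, E, O, hE, hO, D, D', h0, h1, h2, h3, h4⟩ := h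
  refine ⟨r + 1, (E.tensor M).sum (O.tensor N), (E.tensor N).sum (O.tensor M),
    T.add_mem (T.mul_mem hE hM) (T.mul_mem hO hN),
    T.add_mem (T.mul_mem hE hN) (T.mul_mem hO hM),
    mfP D D' φ s b, mfQ D D' φ s b, ?_, ?_, ?_, ?_, ?_⟩
  · have e1 := cl_sum (T := T) (X := E.tensor M) (Y := O.tensor N) (T.mul_mem hE hM)
      (T.mul_mem hO hN)
    have e2 := cl_sum (T := T) (X := E.tensor N) (Y := O.tensor M) (T.mul_mem hE hN)
      (T.mul_mem hO hM)
    rw [cl_tensor hE hM, cl_tensor hO hN] at e1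
    rw [cl_tensor hE hN, cl_tensor hO hM] at e2
    rw [e1, e2, pow_succ, ← h0]
    ring
  · intro g x
    exact mfP_equiv D D' φ s b (E.op g) (O.op g) (M.op g) (N.op g) (h1 g) (h2 g) (hφ g) (hs g) x
  · intro g x
    exact mfQ_equiv D D' φ s b (E.op g) (O.op g) (M.op g) (N.op g) (h1 g) (h2 g) (hφ g) (hs g) x
  · exact mf_QP D D' φ s b c c' h3 h4 hsφ hφs
  · exact mf_PQ D D' φ s b c c' h3 h4 hsφ hφs

/-- Nilpotence. -/
theorem pow_eq_zeroT (M N : OpMod R G) (hM : OpClass.mk M ∈ T) (hN : OpClass.mk N ∈ T)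
    {ι : Type*} (t : Finset ι) (φ : ι → M →ₗ[R] N) (s : ι → N →ₗ[R] M)
    (hφ : ∀ i g x, φ i (M.op g x) = N.op g (φ i x))
    (hs : ∀ i g x, s i (N.op g x) = M.op g (s i x))
    (b c : ι → R)
    (hsφ : ∀ i x, s i (φ i x) = c i • x) (hφs : ∀ i x, φ i (s i x) = c i • x)
    (hsum : ∑ i ∈ t, b i * c i = 1) :
    ∃ r : ℕ, (cl T M hM - cl T N hN) ^ r = 0 := by
  classical
  have key : ∀ u : Finset ι, HasMFT (cl T M hM - cl T N hN) (∑ i ∈ u, b i * c i) := by
    intro u
    induction u using Finset.induction_on with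
    | empty => rw [Finset.sum_empty]; exact hasMFT_zero _
    | insert i u hi ih =>
      rw [Finset.sum_insert hi, add_comm]
      exact hasMFT_step M N hM hN (φ i) (s i) (hφ i) (hs i) (b i) (c i) (hsφ i) (hφs i) _ ih
  obtain ⟨r, E, O, hE, hO, D, D', h0, h1, h2, h3, h4⟩ := key t
  rw [hsum] at h3 h4
  refine ⟨r, ?_⟩
  rw [← h0, sub_eq_zero]
  refine cl_congr hE hO ⟨LinearEquiv.ofLinearMap D D' ?_ ?_, h1⟩
  · ext x; simpa using h4 x
  · ext x; simpa using h3 x

end Cls

section Main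

variable [Group G] {T : Subsemiring (OpClass R G)}

lemma exists_cl (hT : T ≤ repClass R G) (x : K0 T) :
    ∃ (M N : OpMod R G) (hM : OpClass.mk M ∈ T) (hN : OpClass.mk N ∈ T),
      M.IsRep ∧ N.IsRep ∧ x = cl T M hM - cl T N hN := by
  obtain ⟨⟨a, ha⟩, ⟨b, hb⟩, rfl⟩ := K0.exists_of_sub x
  obtain ⟨M, hM, hM'⟩ := hT ha
  obtain ⟨N, hN, hN'⟩ := hT hb
  subst hM
  subst hN
  exact ⟨M, N, ha, hb, hM', hN', rfl⟩

lemma exists_relT (hT : T ≤ repClass R G) (M N : OpMod R G) (hM : OpClass.mk M ∈ T)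
    (hN : OpClass.mk N ∈ T)
    (h : (cl T M hM - cl T N hN) * (cl T M hM - cl T N hN) = cl T M hM - cl T N hN) :
    ∃ P : OpMod R G, P.IsRep ∧
      ((M.tensor M).sum ((N.tensor N).sum (N.sum P))).Iso
        ((M.tensor N).sum ((M.tensor N).sum (M.sum P))) := by
  let x : T := ⟨OpClass.mk M, hM⟩
  let y : T := ⟨OpClass.mk N, hN⟩
  have h1 : (K0.of (x * x + (y * y + y)) : K0 T) = K0.of (x * y + (x * y + x)) := by
    have hx : cl T M hM = K0.of x := rfl
    have hy : cl T N hN = K0.of y := rfl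
    rw [hx, hy] at h
    simp only [map_add, K0.of_mul]
    linear_combination h
  obtain ⟨⟨p, hp⟩, hc⟩ := K0.of_eq_of_iff.1 h1
  obtain ⟨P, hP, hP'⟩ := hT hp
  subst hP
  refine ⟨P, hP', ?_⟩
  apply OpClass.mk_eq_mk.1
  have h2 := congrArg Subtype.val hc
  have h3 : OpClass.mk M * OpClass.mk M + (OpClass.mk N * OpClass.mk N + OpClass.mk N) +
      OpClass.mk P = OpClass.mk M * OpClass.mk N + (OpClass.mk M * OpClass.mk N + OpClass.mk M) +
      OpClass.mk P := h2
  have h4 : OpClass.mk M * OpClass.mk M + (OpClass.mk N * OpClass.mk N + (OpClass.mk N +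
      OpClass.mk P)) = OpClass.mk M * OpClass.mk N + (OpClass.mk M * OpClass.mk N +
      (OpClass.mk M + OpClass.mk P)) := by
    simpa only [add_assoc] using h3
  exact h4

theorem eq_of_finrank (hG : Group.FG G ∨ IsNoetherianRing R) (hT : T ≤ repClass R G)
    [Nontrivial R] (M N : OpMod R G) (hM : OpClass.mk M ∈ T) (hN : OpClass.mk N ∈ T)
    (hM' : M.IsRep) (hN' : N.IsRep)
    (hrk : Module.finrank R M = Module.finrank R N)
    (h : (cl T M hM - cl T N hN) * (cl T M hM - cl T N hN) = cl T M hM - cl T N hN) :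
    cl T M hM - cl T N hN = 0 := by
  obtain ⟨P, hP, hiso⟩ := exists_relT hT M N hM hN h
  obtain ⟨A, hMA, hA1, hAm⟩ := exists_matrices M hM' rfl
  obtain ⟨B, hNB, hB1, hBm⟩ := exists_matrices N hN' hrk.symm
  obtain ⟨C, hPC, -, -⟩ := exists_matrices P hP rfl
  have hrel : Rel A B C := by
    rw [rel_iff]
    have h1 := OpMod.sum_congr (OpMod.tensor_congr hMA hMA)
      (OpMod.sum_congr (OpMod.tensor_congr hNB hNB) (OpMod.sum_congr hNB hPC))
    have h2 := OpMod.sum_congr (OpMod.tensor_congr hMA hNB)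
      (OpMod.sum_congr (OpMod.tensor_congr hMA hNB) (OpMod.sum_congr hMA hPC))
    exact h1.symm.trans (hiso.trans h2)
  obtain ⟨S, hS⟩ := exists_test hG A B hA1 hAm hB1 hBm
  obtain ⟨U, V, hUV, hVU, hU⟩ := hrel
  obtain ⟨t, b, htb⟩ := arbitrary_sum (G := S) (fun g => A g) (fun g => B g)
    (fun g => A (g : G)⁻¹) (fun g => B (g : G)⁻¹) (fun g => C g)
    (fun g => by rw [← hAm, mul_inv_cancel, hA1]) (fun g => by rw [← hBm, mul_inv_cancel, hB1])
    ⟨U, V, hUV, hVU, fun g => hU g⟩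
  have hall : ∀ φ : Inter (fun g : S => A g) (fun g : S => B g), ∀ g, φ.1 * A g = B g * φ.1 :=
    fun φ => hS φ.1 fun g hg => φ.2 ⟨g, hg⟩
  have hadj : ∀ φ : Inter (fun g : S => A g) (fun g : S => B g), ∀ g,
      (φ.1.det • φ.1.adjugate) * B g = A g * (φ.1.det • φ.1.adjugate) := by
    intro φ g
    have h1 := hall φ g
    have h2 : φ.1.adjugate * (φ.1 * A g) * φ.1.adjugate =
        φ.1.adjugate * (B g * φ.1) * φ.1.adjugate := by rw [h1]
    have h3 : φ.1.adjugate * (φ.1 * A g) * φ.1.adjugate = A g * (φ.1.det • φ.1.adjugate) := by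
      rw [← mul_assoc, Matrix.adjugate_mul, Matrix.smul_mul, one_mul, Matrix.smul_mul,
        Matrix.mul_smul]
    have h4 : φ.1.adjugate * (B g * φ.1) * φ.1.adjugate = (φ.1.det • φ.1.adjugate) * B g := by
      rw [mul_assoc, mul_assoc, Matrix.mul_adjugate, Matrix.mul_smul, mul_one, Matrix.mul_smul,
        Matrix.smul_mul]
    rw [← h4, ← h2, h3]
  have hRA : OpClass.mk (mobj A) ∈ T := by rw [← OpClass.mk_eq_mk.2 hMA]; exact hM
  have hRB : OpClass.mk (mobj B) ∈ T := by rw [← OpClass.mk_eq_mk.2 hNB]; exact hN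
  obtain ⟨r, hr⟩ := pow_eq_zeroT (mobj A) (mobj B) hRA hRB t
    (fun φ => φ.1.mulVecLin) (fun φ => (φ.1.det • φ.1.adjugate).mulVecLin)
    (fun φ g x => by
      show φ.1.mulVec ((A g).mulVec x) = (B g).mulVec (φ.1.mulVec x)
      rw [Matrix.mulVec_mulVec, Matrix.mulVec_mulVec, hall φ g])
    (fun φ g x => by
      show (φ.1.det • φ.1.adjugate).mulVec ((B g).mulVec x) =
        (A g).mulVec ((φ.1.det • φ.1.adjugate).mulVec x)
      rw [Matrix.mulVec_mulVec, Matrix.mulVec_mulVec, hadj])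
    b (fun φ => φ.1.det * φ.1.det)
    (fun φ x => by
      show (φ.1.det • φ.1.adjugate).mulVec (φ.1.mulVec x) = (φ.1.det * φ.1.det) • x
      rw [Matrix.mulVec_mulVec, Matrix.smul_mul, Matrix.adjugate_mul, smul_smul,
        Matrix.smul_mulVec, Matrix.one_mulVec])
    (fun φ x => by
      show φ.1.mulVec ((φ.1.det • φ.1.adjugate).mulVec x) = (φ.1.det * φ.1.det) • x
      rw [Matrix.mulVec_mulVec, Matrix.mul_smul, Matrix.mul_adjugate, smul_smul,
        Matrix.smul_mulVec, Matrix.one_mulVec]) htb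
  rw [cl_congr hM hRA hMA, cl_congr hN hRB hNB] at h ⊢
  have h5 : (cl T (mobj A) hRA - cl T (mobj B) hRB) ^ (r + 1) =
      cl T (mobj A) hRA - cl T (mobj B) hRB := IsIdempotentElem.pow_succ_eq r h
  rw [← h5, pow_succ, hr, zero_mul]

/-- **Main theorem.** -/
theorem main (hG : Group.FG G ∨ IsNoetherianRing R) (hT : T ≤ repClass R G) (e : K0 T)
    (he : e * e = e) : e = 0 ∨ e = 1 := by
  rcases subsingleton_or_nontrivial R with hR | hR
  · left
    obtain ⟨M, N, hM, hN, hM', hN', rfl⟩ := exists_cl hT e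
    have h1 : Subsingleton M := Module.subsingleton R M
    have h2 : Subsingleton N := Module.subsingleton R N
    rw [cl_congr hM hN ⟨
      { toFun := 0
        invFun := 0
        map_add' := by simp
        map_smul' := by simp
        left_inv := fun _ => Subsingleton.elim _ _
        right_inv := fun _ => Subsingleton.elim _ _ }, fun _ _ => Subsingleton.elim _ _⟩, sub_self]
  · obtain ⟨M, N, hM, hN, hM', hN', rfl⟩ := exists_cl hT e
    obtain ⟨P, hP, hiso⟩ := exists_relT hT M N hM hN he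
    rcases finrank_rel M N P hM' hN' hP hiso with h | h
    · left
      exact eq_of_finrank hG hT M N hM hN hM' hN' h he
    · right
      have h1 : Module.finrank R ((OpMod.unit R G).sum N) = Module.finrank R M := by
        have := hN'.free
        have := hN'.finite
        have h2 : Module.finrank R ((OpMod.unit R G).sum N) = 1 + Module.finrank R N := by
          rw [← Module.finrank_self R]
          exact Module.finrank_prod
        rw [h2, h, add_comm]
      have e1 := cl_sum (T := T) (X := OpMod.unit R G) (Y := N) T.one_mem hN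
      rw [cl_unit] at e1
      have h3 := eq_of_finrank hG hT ((OpMod.unit R G).sum N) M (T.add_mem T.one_mem hN) hM
        (isRepF_unit.sum hN') hM' h1 (by
        rw [e1]
        linear_combination he)
      rw [e1] at h3
      linear_combination -h3

end Main

end Pool.Agent.Y112.IR
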